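import Pool.Agent.helper36.PP.SpecM
import Pool.Agent.helper28.PP.PAIR

/-!
# Project pp (MP_70a088_an), module PAIR2: pairing for a pair of forms
-/

set_option autoImplicit false

open Complex Metric Set Filter Topology MeasureTheory MPS MQ Pool.Agent.helper98.ILF

noncomputable section

namespace PPS

theorem PAIR2_int {k : ℕ} [NeZero k] (A : ℝ) (b g : ZMod k → ℂ) (μ : ℂ → ℂ)
    (hm0 : Measurable μ) (hbd : ∀ z, ‖μ z‖ ≤ 1) (hsupp : ∀ z, μ z ≠ 0 → ‖z‖ < A)
    (r : ZMod k → ℝ) (hr : ∀ i, 0 < r i) :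
    IntegrableOn (fun z => μ z * BB b g z) (NLF.KK b r) := by
  have hB : Measurable (BB b g) := PAIR_BB b g
  have hm : Measurable fun z => μ z * BB b g z := hm0.mul hB
  have hK := PAIR_meas b r
  have h1 : IntegrableOn (fun z => μ z * BB b g z) (NLF.KK b r ∩ ball 0 A) := by
    refine Measure.integrableOn_of_bounded (M := ∑ i, (1 / r i ^ 2 + ‖g i‖ / r i)) ?_
      hm.aestronglyMeasurable ?_
    · exact ne_of_lt (lt_of_le_of_lt (measure_mono inter_subset_right) measure_ball_lt_top)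
    · rw [ae_restrict_iff' (hK.inter measurableSet_ball)]
      refine Eventually.of_forall fun z hz => ?_
      rw [norm_mul]
      calc ‖μ z‖ * ‖BB b g z‖ ≤ 1 * ‖BB b g z‖ :=
            mul_le_mul_of_nonneg_right (hbd z) (norm_nonneg _)
        _ = ‖BB b g z‖ := one_mul _
        _ ≤ _ := PAIR_bd b g r hr z hz.1
  refine h1.of_forall_sdiff_eq_zero hK fun z hz => ?_
  have h2 : μ z = 0 := by
    by_contra h
    exact hz.2 ⟨hz.1, by rw [mem_ball, dist_zero_right]; exact hsupp z h⟩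
  rw [h2, zero_mul]

/-- a bounded form with bounded support at a positive distance of `w`, divided by a power. -/
theorem PAIR2_intw (A : ℝ) (β : ℂ → ℂ) (hm0 : Measurable β) (hbd : ∀ z, ‖β z‖ ≤ 1)
    (hsupp : ∀ z, β z ≠ 0 → ‖z‖ < A) (w : ℂ) (ρ : ℝ) (hρ : 0 < ρ)
    (hd : ∀ z, β z ≠ 0 → ρ ≤ ‖z - w‖) (n : ℕ) :
    Integrable (fun z => β z / (z - w) ^ n) := by
  have hm : Measurable fun z => β z / (z - w) ^ n :=
    hm0.div ((measurable_id.sub_const w).pow_const n)
  have h1 : IntegrableOn (fun z => β z / (z - w) ^ n) (ball 0 A) := by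
    refine Measure.integrableOn_of_bounded (M := 1 / ρ ^ n) ?_ hm.aestronglyMeasurable ?_
    · exact ne_of_lt measure_ball_lt_top
    · refine Eventually.of_forall fun z => ?_
      by_cases hz : β z = 0
      · rw [hz, zero_div, norm_zero]; positivity
      · rw [norm_div, norm_pow]
        exact div_le_div₀ zero_le_one (hbd z) (by positivity)
          (pow_le_pow_left₀ hρ.le (hd z hz) n)
  rw [← integrableOn_univ]
  refine h1.of_forall_sdiff_eq_zero MeasurableSet.univ fun z hz => ?_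
  have h2 : β z = 0 := by
    by_contra h
    exact hz.2 (by rw [mem_ball, dist_zero_right]; exact hsupp z h)
  rw [h2, zero_div]

theorem PAIR2_zero {k : ℕ} [NeZero k] (A : ℝ) (b g : ZMod k → ℂ) (β : ℂ → ℂ)
    (hm0 : Measurable β) (hbd : ∀ z, ‖β z‖ ≤ 1) (hsupp : ∀ z, β z ≠ 0 → ‖z‖ < A)
    (r : ZMod k → ℝ) (hr : ∀ i, 0 < r i) (hd : ∀ i z, β z ≠ 0 → r i ≤ ‖z - b i‖)
    (hz : ∀ i, NLF.CT β (b i) = 0 ∧ ∫ z : ℂ, β z / (z - b i) ^ 2 = 0) :
    ∫ z in NLF.KK b r, β z * BB b g z = 0 := by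
  have h1 : ∫ z in NLF.KK b r, β z * BB b g z = ∫ z in (univ : Set ℂ), β z * BB b g z := by
    symm
    refine setIntegral_eq_of_subset_of_forall_sdiff_eq_zero MeasurableSet.univ (subset_univ _)
      fun z hz => ?_
    have h2 : β z = 0 := by
      by_contra h
      have h3 : z ∈ ⋃ i, ball (b i) (r i) := by
        by_contra h4
        exact hz.2 h4
      rw [mem_iUnion] at h3
      obtain ⟨i, hi⟩ := h3
      rw [mem_ball, dist_eq_norm] at hi
      exact absurd (hd i z h) (not_le.2 hi)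
    rw [h2, zero_mul]
  rw [h1, setIntegral_univ]
  have h2 : ∀ z, β z * BB b g z =
      ∑ i, (β z / (z - b i) ^ 2 + g i * (β z / (z - b i) ^ 1)) := by
    intro z
    unfold BB
    rw [Finset.mul_sum]
    refine Finset.sum_congr rfl fun i _ => ?_
    rw [pow_one]
    ring
  have hi2 : ∀ i, Integrable (fun z => β z / (z - b i) ^ 2) := fun i =>
    PAIR2_intw A β hm0 hbd hsupp (b i) (r i) (hr i) (hd i) 2
  have hi1 : ∀ i, Integrable (fun z => g i * (β z / (z - b i) ^ 1)) := fun i =>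
    (PAIR2_intw A β hm0 hbd hsupp (b i) (r i) (hr i) (hd i) 1).const_mul (g i)
  simp_rw [h2]
  rw [integral_finsetSum]
  · refine Finset.sum_eq_zero fun i _ => ?_
    rw [integral_add (hi2 i) (hi1 i), (hz i).2, zero_add, integral_const_mul]
    have h3 : ∫ z : ℂ, β z / (z - b i) ^ 1 = 0 := by
      simp_rw [pow_one]
      exact (hz i).1
    rw [h3, mul_zero]
  · intro i _
    exact (hi2 i).add (hi1 i)

theorem PAIR2 (hIP : IP2_stmt) : PAIR2_stmt := by
  intro k _ f b g A μ β r hn hb hPR hr hd hz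
  have hB : Measurable (BB b g) := PAIR_BB b g
  set K := NLF.KK b r with hKdef
  set fK : Set ℂ := {y : ℂ | f.eval y ∈ K} with hfK
  have hKm : MeasurableSet K := PAIR_meas b r
  have hfm : MeasurableSet fK := PAIR_fmeas f hKm
  have hiK : IntegrableOn (fun z => μ z * BB b g z) K :=
    PAIR2_int A b g μ hPR.measμ hPR.bdμ hPR.suppμ r hr
  have hiβ : IntegrableOn (fun z => β z * BB b g z) K :=
    PAIR2_int A b g β hPR.measβ hPR.bdβ hPR.suppβ r hr
  obtain ⟨r', hr', hsub⟩ := PAIR_pre f b hb r hr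
  have hifK : IntegrableOn (fun z => μ z * BB b g z) fK :=
    (PAIR2_int A b g μ hPR.measμ hPR.bdμ hPR.suppμ r' hr').mono_set hsub
  obtain ⟨hT1, hT2⟩ := hIP f μ (fun z => μ z + β z) hn hPR.measμ (hPR.measμ.add hPR.measβ)
    hPR.inv (BB b g) K hB hKm hifK
  have hβ0 : ∫ z in K, β z * BB b g z = 0 :=
    PAIR2_zero A b g β hPR.measβ hPR.bdβ hPR.suppβ r hr hd hz
  have hae : ∫ z in K, (μ z + β z) * er f b g z =
      ∫ z in K, ((μ z * BB b g z + β z * BB b g z) - (μ z + β z) * TT f (BB b g) z) := by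
    congr 1
    funext z
    unfold er
    ring
  have hiS : IntegrableOn (fun z => μ z * BB b g z + β z * BB b g z) K := hiK.add hiβ
  rw [hae, integral_sub hiS hT1, hT2, integral_add hiK hiβ, hβ0, add_zero]
  have hd1 : ∫ z in K, μ z * BB b g z =
      (∫ z in K ∩ fK, μ z * BB b g z) + ∫ z in K \ fK, μ z * BB b g z :=
    (integral_inter_add_sdiff hfm hiK).symm
  have hd2 : ∫ z in fK, μ z * BB b g z =
      (∫ z in fK ∩ K, μ z * BB b g z) + ∫ z in fK \ K, μ z * BB b g z :=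
    (integral_inter_add_sdiff hKm hifK).symm
  have hd3 : ∫ z in K \ fK, μ z * BB b g z = ∫ z in (K \ fK) ∩ ball 0 A, μ z * BB b g z := by
    refine setIntegral_eq_of_subset_of_forall_sdiff_eq_zero (hKm.diff hfm) inter_subset_left
      fun z hz => ?_
    have h2 : μ z = 0 := by
      by_contra h
      exact hz.2 ⟨hz.1, by rw [mem_ball, dist_zero_right]; exact hPR.suppμ z h⟩
    rw [h2, zero_mul]
  rw [hd1, hd2, inter_comm fK K, add_sub_add_left_eq_sub, hd3]
  have hb' : ∀ z, ‖μ z * BB b g z‖ ≤ ‖BB b g z‖ := by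
    intro z
    rw [norm_mul]
    calc ‖μ z‖ * ‖BB b g z‖ ≤ 1 * ‖BB b g z‖ :=
          mul_le_mul_of_nonneg_right (hPR.bdμ z) (norm_nonneg _)
      _ = ‖BB b g z‖ := one_mul _
  have hA := PAIR_enorm (fK \ K) (fun z => μ z * BB b g z) (BB b g) hb'
  have hC := PAIR_enorm ((K \ fK) ∩ ball 0 A) (fun z => μ z * BB b g z) (BB b g)
    hb'
  refine (ENNReal.ofReal_le_ofReal (norm_sub_le _ _)).trans ?_
  rw [ENNReal.ofReal_add (norm_nonneg _) (norm_nonneg _), add_comm]
  exact add_le_add hA hC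

end PPS
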