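import Pool.Agent.helper25.PP.Spec

set_option autoImplicit false

namespace PP

open Finset SimpleGraph CT

theorem DT1_key {V : Type} [Fintype V] [DecidableEq V] (G : SimpleGraph V)
    (h1 : DE_stmt) (h3 : HS_stmt) (hreg : FourRegular G) (hE1 : ¬ E1 G) (hE2 : ¬ E2 G)
    (F : Finset (Sym2 V)) (hFc : F.card = 4) (S : Finset V) (hS1 : S.Nonempty)
    (hS2 : 2 * S.card ≤ Fintype.card V)
    (hS3 : ∀ x ∈ S, ∀ y, y ∉ S → ¬ (G.deleteEdges (F : Set (Sym2 V))).Adj x y) :
    ∃ v, ∀ a ∈ F, v ∈ a := by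
  classical
  have hsub : (out G S).image (fun p => s(p.1, p.2)) ⊆ F := by
    intro a ha
    rw [Finset.mem_image] at ha
    obtain ⟨p, hp, rfl⟩ := ha
    rw [mem_dout] at hp
    obtain ⟨⟨hp1, hp2⟩, hp3⟩ := hp
    by_contra hcon
    apply hS3 p.1 hp1 p.2 hp2
    rw [SimpleGraph.deleteEdges_adj]
    exact ⟨hp3, fun h => hcon (by simpa using h)⟩
  have hinj : Set.InjOn (fun p : V × V => s(p.1, p.2)) (out G S : Set (V × V)) := by
    intro p hp q hq hpq
    rw [Finset.mem_coe, mem_dout] at hp hq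
    obtain ⟨⟨hp1, hp2⟩, hp3⟩ := hp
    obtain ⟨⟨hq1, hq2⟩, hq3⟩ := hq
    simp only [Sym2.eq_iff] at hpq
    rcases hpq with ⟨ha, hb⟩ | ⟨ha, hb⟩
    · exact Prod.ext ha hb
    · exfalso
      rw [ha] at hp1
      exact hq2 hp1
  have hcard : ((out G S).image (fun p => s(p.1, p.2))).card = dout G S :=
    Finset.card_image_of_injOn hinj
  have hle : dout G S ≤ 4 := by
    rw [← hcard, ← hFc]
    exact Finset.card_le_card hsub
  have hc1 : S.card = 1 := by
    by_contra hne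
    have hpos : 0 < S.card := Finset.card_pos.mpr hS1
    have h2 : 2 ≤ S.card := by omega
    have := h1 V G S hreg hE1 hE2 h2 hS2
    omega
  obtain ⟨v, hv⟩ := Finset.card_eq_one.mp hc1
  have hein : ein G S = 0 := by
    unfold ein
    rw [Finset.card_eq_zero, Finset.eq_empty_iff_forall_notMem]
    intro p hp
    rw [mem_ein] at hp
    obtain ⟨⟨hp1, hp2⟩, hp3⟩ := hp
    rw [hv, Finset.mem_singleton] at hp1 hp2
    rw [hp1, hp2] at hp3
    exact G.loopless.irrefl v hp3
  have hd := (h3 V G S hreg).2.1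
  have hd4 : dout G S = 4 := by omega
  have heq : (out G S).image (fun p => s(p.1, p.2)) = F := by
    apply Finset.eq_of_subset_of_card_le hsub
    rw [hcard, hd4, hFc]
  refine ⟨v, fun a ha => ?_⟩
  rw [← heq, Finset.mem_image] at ha
  obtain ⟨p, hp, rfl⟩ := ha
  rw [mem_dout] at hp
  have := hp.1.1
  rw [hv, Finset.mem_singleton] at this
  rw [← this]
  exact Sym2.mem_mk_left _ _

theorem DT1 (h1 : DE_stmt) (h2 : CN_stmt) (h3 : HS_stmt) (_h4 : NB4_stmt) : DT1_stmt := by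
  intro V _ _ G hreg hE1 hE2 hn F hF hFc hnc
  have hne : Nonempty V := by
    rw [← Fintype.card_pos_iff]; omega
  obtain ⟨S, hS1, hS2, hS3⟩ := h2 V (G.deleteEdges (F : Set (Sym2 V))) hne hnc
  have hcs : S.card + Sᶜ.card = Fintype.card V := by
    rw [Finset.card_add_card_compl]
  by_cases hc : 2 * S.card ≤ Fintype.card V
  · exact DT1_key G h1 h3 hreg hE1 hE2 F hFc S hS1 hc hS3
  · apply DT1_key G h1 h3 hreg hE1 hE2 F hFc Sᶜ hS2 (by omega)
    intro x hx y hy hxy
    rw [Finset.mem_compl] at hx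
    have hy' : y ∈ S := by simpa using hy
    exact hS3 y hy' x hx hxy.symm

end PP
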