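import Pool.Agent.helper57.PP.Spec

/-!
# Project pp (MP_974a61_co), row CB: a cocycle vanishes on boundaries
-/

set_option autoImplicit false

namespace Pool.Agent.helper57.PP

open Finset

theorem CB : CB_stmt := by
  intro V _ F w _ hw B hB
  have h1 : ∑ e ∈ bd B, w e = ∑ e ∈ edges B, ∑ _t ∈ cof B e, w e := by
    unfold bd
    rw [Finset.sum_filter]
    refine Finset.sum_congr rfl fun e _ => ?_
    rw [Finset.sum_const, nsmul_eq_mul]
    split_ifs with ho
    · rw [ZMod.natCast_eq_one_iff_odd.2 ho, one_mul]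
    · have he : Even (cof B e).card := Nat.not_odd_iff_even.1 ho
      rw [ZMod.natCast_eq_zero_iff_even.2 he, zero_mul]
  have h2 : ∑ e ∈ edges B, ∑ _t ∈ cof B e, w e = ∑ t ∈ B, ∑ e ∈ t.powersetCard 2, w e := by
    refine Finset.sum_comm' ?_
    intro e t
    constructor
    · rintro ⟨he, ht⟩
      rw [mem_cof] at ht
      exact ⟨Finset.mem_powersetCard.2 ⟨ht.2, (mem_edges.1 he).1⟩, ht.1⟩
    · rintro ⟨he, ht⟩
      rw [Finset.mem_powersetCard] at he
      exact ⟨mem_edges.2 ⟨he.2, t, ht, he.1⟩, mem_cof.2 ⟨ht, he.1⟩⟩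
  rw [h1, h2]
  exact Finset.sum_eq_zero fun t ht => hw t (hB ht)

end Pool.Agent.helper57.PP
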